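import Pool.Agent.Y166.DP.Stm
import Pool.Agent.Y166.GM.Chev

/-!
Project DP, C4: generic points of varieties over the complex numbers.
-/

set_option autoImplicit false

namespace Pool.Agent.Y658.DP

open MvPolynomial Cardinal Pool.Agent.Y166.DP

/-- there are arbitrarily many complex numbers algebraically independent over a given countable
field -/
theorem exists_indep (F : IntermediateField ℚ ℂ) (hF : #F ≤ ℵ₀) (m : ℕ) :
    ∃ t : Fin m → ℂ, AlgebraicIndependent F t := by
  obtain ⟨s, hs⟩ := exists_isTranscendenceBasis F ℂ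
  have h1 := IsAlgClosed.cardinal_eq_cardinal_transcendence_basis_of_aleph0_lt' _ hs hF (by
    rw [Cardinal.mk_complex]; exact Cardinal.aleph0_lt_continuum)
  have h2 : Infinite s := by
    rw [Cardinal.infinite_iff, ← h1, Cardinal.mk_complex]
    exact Cardinal.aleph0_le_continuum
  exact ⟨fun i => ((Infinite.natEmbedding s) i : ℂ),
    hs.1.comp (fun i : Fin m => Infinite.natEmbedding s i)
      (fun a b h => Fin.ext ((Infinite.natEmbedding s).injective h))⟩

theorem indep_cons (F : IntermediateField ℚ ℂ) (lam : ℂ) (hl : lam ∈ F)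
    (hlam : Transcendental ℚ lam) {m : ℕ} (t : Fin m → ℂ) (ht : AlgebraicIndependent F t) :
    AlgebraicIndependent ℚ (Fin.cons lam t : Fin (m + 1) → ℂ) := by
  have h1 : AlgebraicIndependent ℚ (fun _ : Unit => lam) :=
    (algebraicIndependent_unique_type_iff (ι := Unit)).2 hlam
  have h2 : AlgebraicIndependent ℚ (Sum.elim t (fun _ : Unit => lam)) := by
    refine h1.sumElim_of_tower (S := F) ?_ ht
    rintro _ ⟨_, rfl⟩
    exact ⟨⟨lam, hl⟩, rfl⟩
  let f : Fin (m + 1) → Fin m ⊕ Unit := Fin.cons (Sum.inr ()) Sum.inl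
  have hf : Function.Injective f := by
    intro a b
    induction a using Fin.cases with
    | zero =>
      induction b using Fin.cases with
      | zero => simp
      | succ b => simp [f]
    | succ a =>
      induction b using Fin.cases with
      | zero => simp [f]
      | succ b => simp [f]
  have h3 := h2.comp f hf
  have h4 : Sum.elim t (fun _ : Unit => lam) ∘ f = (Fin.cons lam t : Fin (m + 1) → ℂ) := by
    funext a
    induction a using Fin.cases with
    | zero => simp [f]
    | succ a => simp [f]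
  rwa [h4] at h3

theorem stmGen : StmGen := by
  classical
  intro σ _ I hI h hh lam hlam
  have := hI
  set S : Set (MvPolynomial σ ℂ ⧸ I) := Set.range fun s => Ideal.Quotient.mk I (X s) with hSdef
  have hmk : ∀ p : MvPolynomial σ ℂ, Ideal.Quotient.mk I p =
      aeval (fun s => Ideal.Quotient.mk I (X s)) p := by
    intro p
    have h1 : Ideal.Quotient.mkₐ ℂ I = aeval (fun s => Ideal.Quotient.mk I (X s)) := by
      apply MvPolynomial.algHom_ext
      intro s
      simp
    exact congrArg (fun φ : MvPolynomial σ ℂ →ₐ[ℂ] (MvPolynomial σ ℂ ⧸ I) => φ p) h1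
  have hS : Algebra.adjoin ℂ S = ⊤ := by
    rw [eq_top_iff]
    rintro b -
    obtain ⟨p, rfl⟩ := Ideal.Quotient.mk_surjective b
    rw [hmk, hSdef, Algebra.adjoin_range_eq_range_aeval]
    exact ⟨p, rfl⟩
  have : Algebra.IsAlgebraic (Algebra.adjoin ℂ S) (MvPolynomial σ ℂ ⧸ I) := by
    refine ⟨fun b => ?_⟩
    have hb : b ∈ Algebra.adjoin ℂ S := by
      rw [hS]; trivial
    exact isAlgebraic_algebraMap (⟨b, hb⟩ : Algebra.adjoin ℂ S)
  obtain ⟨T, hTS, hT⟩ := exists_isTranscendenceBasis_subset (R := ℂ) S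
  have hTf : T.Finite := (Set.finite_range _).subset hTS
  have := hTf.to_subtype
  have hcard : Cardinal.toNat (Algebra.trdeg ℂ (MvPolynomial σ ℂ ⧸ I)) = Nat.card T := by
    rw [← hT.cardinalMk_eq_trdeg]; rfl
  let e : Fin (Cardinal.toNat (Algebra.trdeg ℂ (MvPolynomial σ ℂ ⧸ I))) ≃ T :=
    (finCongr hcard).trans (Finite.equivFin T).symm
  have hj : ∀ i, ∃ s, Ideal.Quotient.mk I (X s) = (e i : MvPolynomial σ ℂ ⧸ I) :=
    fun i => hTS (e i).2
  choose j hj using hj
  have hind := hT.1.comp e e.injective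
  obtain ⟨D, hD0, hD⟩ := Pool.Agent.Y166.GM.chev
    (k := ℂ) (Algebra.FiniteType.of_surjective (Ideal.Quotient.mkₐ ℂ I)
      (Ideal.Quotient.mkₐ_surjective ℂ I)) (aeval (Subtype.val ∘ e)) hind
    (Ideal.Quotient.mk I h) (by
      intro h0
      exact hh (Ideal.Quotient.eq_zero_iff_mem.1 h0))
  set F : IntermediateField ℚ ℂ := IntermediateField.adjoin ℚ (insert lam (D.coeffs : Set ℂ))
    with hFdef
  have hF : #F ≤ ℵ₀ := by
    refine (IntermediateField.cardinalMk_adjoin_le ℚ _).trans ?_
    refine max_le (max_le (by simp) ?_) le_rfl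
    exact (Set.Countable.insert _ (Finset.countable_toSet _)).le_aleph0
  have hsub : ∀ z ∈ insert lam (D.coeffs : Set ℂ), z ∈ F :=
    fun z hz => IntermediateField.subset_adjoin _ _ hz
  obtain ⟨t, ht⟩ := exists_indep F hF _
  have hDr : D ∈ Set.range (MvPolynomial.map (algebraMap F ℂ)) := by
    rw [mem_range_map_iff_coeffs_subset]
    intro z hz
    exact ⟨⟨z, hsub z (Set.mem_insert_of_mem _ hz)⟩, rfl⟩
  obtain ⟨D', hD'⟩ := hDr
  have hDt : eval t D ≠ 0 := by
    intro h0
    apply hD0
    rw [← hD', MvPolynomial.eval_map] at h0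
    have h1 : aeval t D' = 0 := by rw [aeval_def]; exact h0
    have h2 : D' = 0 := by
      apply ht
      rw [h1, map_zero]
    rw [← hD', h2, map_zero]
  obtain ⟨χ, hχ, hχt⟩ := hD t hDt
  have hev : ∀ p : MvPolynomial σ ℂ, eval (fun s => χ (Ideal.Quotient.mk I (X s))) p =
      χ (Ideal.Quotient.mk I p) := by
    intro p
    have h1 : χ.comp (Ideal.Quotient.mkₐ ℂ I) =
        aeval (fun s => χ (Ideal.Quotient.mk I (X s))) := by
      apply MvPolynomial.algHom_ext
      intro s
      simp
    have h2 := congrArg (fun φ : MvPolynomial σ ℂ →ₐ[ℂ] ℂ => φ p) h1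
    rw [← aeval_eq_eval]
    exact h2.symm
  refine ⟨fun s => χ (Ideal.Quotient.mk I (X s)), ?_, ?_, j, ?_⟩
  · intro G hG
    rw [hev, Ideal.Quotient.eq_zero_iff_mem.2 hG, map_zero]
  · rw [hev]
    exact hχ
  · have h1 : (fun i => χ (Ideal.Quotient.mk I (X (j i)))) = t := by
      funext i
      have h2 := hχt i
      rw [aeval_X] at h2
      rw [hj i]
      exact h2
    show AlgebraicIndependent ℚ (Fin.cons lam (fun i => χ (Ideal.Quotient.mk I (X (j i)))) :
      Fin (_ + 1) → ℂ)
    rw [h1]
    exact indep_cons F lam (hsub lam (Set.mem_insert _ _)) hlam t ht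

end Pool.Agent.Y658.DP
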